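import Pool.Agent.X99.SY.H

/-!
# Polymorphism clones and type clones have trivial identities simultaneously, for almost all reducts

Let `𝔹` be a homogeneous structure in a finite relational signature (the structure `Δ` of the problem; the order, the Ramsey
property and finite boundedness are not needed), `G = Aut(𝔹)`, `Γ` a finite family of `G`-invariant relations (the reducts
of the problem are the families of `G`-invariant relations). For almost all relations `R`, `Pol(B; Γ, R)` has a clone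
homomorphism to the clone of projections if and only if the type clone has one, for all constants `c` and all `m ≥ 2`.

Definitions. From `Pool.Agent.W994.AR` (as in `AlmostAllReducts` for `MP_6ab439_lc`): `Str σ ar B`: a structure on `B`, one
relation `Set (Fin (ar i) → B)` for each symbol `i : σ`; `autGroup 𝔹`, `Homogeneous`: as in the problem; `Invar G S`: `S` is
invariant under `G`; `InvRel G (Fin k)`: the type of all `G`-invariant relations of arity `k`; `Orb G (Fin m)`: the type of the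
orbits of `G` on `m`-tuples; `expand Γ R`: the structure with the relations of `Γ` and the relations `R j`; `IsPol 𝔸 f`: `f` is
a polymorphism of `𝔸`; `constOrbits G Γ`: the number of orbits of `G` on `B` all of whose points `b` have `(b, ..., b)` in
every nonempty relation of `Γ`. From `Pool.Agent.X99.SY.D`: `size R`: the number of the orbits of `k`-tuples contained in `R`.
From `Pool.Agent.X99.SY.H`: `HomToProj C`: the clone `C` has a clone homomorphism to the clone of projections on `{0,1}`;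
`Pol 𝔸`: the polymorphism clone; `stab G c`: the pointwise stabilizer of `c`, the automorphism group of the expansion by the
constants `c`; `Canonical H f`; `TypeClone H m 𝔸`: the operations on `m`-types (orbits of `H`) induced by the canonical
polymorphisms.
-/

set_option autoImplicit false

namespace Pool.Agent.Results.MP_f99268_lc.AlmostAllReducts

open Pool.Agent.W994.AR Pool.Agent.X99.SY

/-- The polymorphism clone has a clone homomorphism to the projections if and only if the type clone has one, for ALL constants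
and all `m ≥ 2`. -/
def Agree {B ι : Type} {ar : ι → ℕ} (G : Subgroup (Equiv.Perm B)) (𝔸 : Str ι ar B) : Prop :=
  ∀ (n : ℕ) (c : Fin n → B) (m : ℕ), 2 ≤ m → (HomToProj (Pol 𝔸) ↔ HomToProj (TypeClone (stab G c) m 𝔸))

/-- The template `(B; Γ, R)`. -/
abbrev template {B ι : Type} {arΓ : ι → ℕ} (Γ : Str ι arΓ B) {G : Subgroup (Equiv.Perm B)} {k : ℕ}
    (R : InvRel G (Fin k)) : Str (ι ⊕ Fin 1) (Sum.elim arΓ fun _ => k) B :=
  expand Γ (τ := Fin 1) (k := fun _ => k) (fun _ => R.1)

theorem card_or {α : Type} [Finite α] {p q r : α → Prop} (h : ∀ x, p x → q x ∨ r x) :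
    Nat.card {x // p x} ≤ Nat.card {x // q x} + Nat.card {x // r x} := by
  classical
  rw [← Nat.card_sum]
  apply Nat.card_le_card_of_injective (fun x : {x // p x} =>
    if hq : q x.1 then (Sum.inl ⟨x.1, hq⟩ : {x // q x} ⊕ {x // r x}) else Sum.inr ⟨x.1, (h x.1 x.2).resolve_left hq⟩)
  intro x y hxy
  dsimp only at hxy
  split_ifs at hxy with h4 h5 h5
  · simp only [Sum.inl.injEq, Subtype.mk.injEq] at hxy
    exact Subtype.ext hxy
  · simp only [Sum.inr.injEq, Subtype.mk.injEq] at hxy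
    exact Subtype.ext hxy

theorem result {B σ ι : Type} [Nontrivial B] [Finite σ] [Finite ι] {arB : σ → ℕ} {arΓ : ι → ℕ}
    (𝔹 : Str σ arB B) (h𝔹 : Homogeneous 𝔹) (Γ : Str ι arΓ B)
    (hΓ : ∀ l, Invar (autGroup 𝔹) (Γ l)) :
    (∀ k, Finite (InvRel (autGroup 𝔹) (Fin k))) ∧
    -- several random relations of large arities
    (∃ C c δ : ℝ, 0 < C ∧ 0 < c ∧ 0 < δ ∧ ∀ (t : ℕ) (k : Fin t → ℕ) (m : ℕ), 1 ≤ t → (∀ j, m ≤ k j) →
      (Nat.card {R : ∀ j, InvRel (autGroup 𝔹) (Fin (k j)) //
          ¬ Agree (autGroup 𝔹) (expand Γ (fun j => (R j).1))} : ℝ) ≤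
        t * C * Real.exp (-(δ * Real.exp (c * m))) * Nat.card (∀ j, InvRel (autGroup 𝔹) (Fin (k j)))) ∧
    -- one random relation with a prescribed number of orbits
    (∃ (k₀ : ℕ) (C c : ℝ), 0 < C ∧ 0 < c ∧ ∀ k s : ℕ, k₀ ≤ k →
      Real.exp (-(c * k)) * Nat.card (Orb (autGroup 𝔹) (Fin k)) ≤ s →
      (s : ℝ) ≤ (1 - Real.exp (-(c * k))) * Nat.card (Orb (autGroup 𝔹) (Fin k)) →
      (Nat.card {R : InvRel (autGroup 𝔹) (Fin k) // size R = s ∧ ¬ Agree (autGroup 𝔹) (template Γ R)} : ℝ) ≤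
        C * Real.exp (-(1 / 8 * Real.exp (c * k))) * Nat.card {R : InvRel (autGroup 𝔹) (Fin k) // size R = s}) ∧
    -- the proportion of the relations for which there is a clone homomorphism
    (∃ C c δ : ℝ, 0 < C ∧ 0 < c ∧ 0 < δ ∧ ∀ k : ℕ, 1 ≤ k →
      |(Nat.card {R : InvRel (autGroup 𝔹) (Fin k) // HomToProj (Pol (template Γ R))} : ℝ) -
          (2⁻¹ : ℝ) ^ constOrbits (autGroup 𝔹) Γ * Nat.card (InvRel (autGroup 𝔹) (Fin k))| ≤
        C * Real.exp (-(δ * Real.exp (c * k))) * Nat.card (InvRel (autGroup 𝔹) (Fin k))) := by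
  classical
  have hfin : ∀ k, Finite (Orb (autGroup 𝔹) (Fin k)) := fun k => hom_finite h𝔹 (Fin k)
  have hfinI : ∀ k, Finite (InvRel (autGroup 𝔹) (Fin k)) := fun k => by
    have := hfin k
    exact finite_inv _ _
  have hdich : ∀ (t : ℕ) (k : Fin t → ℕ) (R : ∀ j, InvRel (autGroup 𝔹) (Fin (k j))), 0 < t →
      (∀ j, Rich (autGroup 𝔹) (Fin (dim arB arΓ)) (R j).1) →
      ConstEndo (expand Γ (fun j => (R j).1)) ∨ PPMax (autGroup 𝔹) (expand Γ (fun j => (R j).1)) := by
    intro t k R ht h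
    by_cases hcst : ConstEndo (expand Γ (fun j => (R j).1))
    · exact Or.inl hcst
    · exact Or.inr (max_of_rich 𝔹 h𝔹 Γ hΓ ht R h hcst)
  have hagree : ∀ (t : ℕ) (k : Fin t → ℕ) (R : ∀ j, InvRel (autGroup 𝔹) (Fin (k j))), 0 < t →
      (∀ j, Rich (autGroup 𝔹) (Fin (dim arB arΓ)) (R j).1) → Agree (autGroup 𝔹) (expand Γ (fun j => (R j).1)) :=
    fun t k R ht h n c m hm => iff_of_dichotomy (hdich t k R ht h) (stab (autGroup 𝔹) c) hm
  obtain ⟨C, c, δ, hC, hc, hδ, hbd⟩ := rich_bound_many (autGroup 𝔹) (dim arB arΓ) (dim_pos _ _) hfin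
  refine ⟨hfinI, ⟨C, c, δ, hC, hc, hδ, fun t k m ht hm => ?_⟩, ?_, ⟨C, c, δ, hC, hc, hδ, fun k hk => ?_⟩⟩
  · refine le_trans ?_ (hbd t k m hm)
    have : Finite (∀ j, InvRel (autGroup 𝔹) (Fin (k j))) := inferInstance
    have h2 : Nat.card {R : ∀ j, InvRel (autGroup 𝔹) (Fin (k j)) //
          ¬ Agree (autGroup 𝔹) (expand Γ (fun j => (R j).1))} ≤
        Nat.card {R : ∀ j, InvRel (autGroup 𝔹) (Fin (k j)) //
          ¬ ∀ j, Rich (autGroup 𝔹) (Fin (dim arB arΓ)) (R j).1} := by
      apply Nat.card_le_card_of_injective (fun R => ⟨R.1, fun h => R.2 (hagree t k R.1 ht h)⟩)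
      intro R R' h
      exact Subtype.ext (congrArg (fun x => x.1) h)
    exact_mod_cast h2
  · obtain ⟨K, r, hK⟩ := orb_card_le h𝔹
    obtain ⟨C, c, hC, hc, hb⟩ := size_bound (autGroup 𝔹) (dim arB arΓ) (dim_pos _ _) hfin K r hK
    refine ⟨dim arB arΓ, C, c, hC, hc, fun k s hk hs1 hs2 => ?_⟩
    refine le_trans ?_ (hb k s hk hs1 hs2)
    have := hfinI k
    have h2 : Nat.card {R : InvRel (autGroup 𝔹) (Fin k) // size R = s ∧ ¬ Agree (autGroup 𝔹) (template Γ R)} ≤
        Nat.card {R : InvRel (autGroup 𝔹) (Fin k) // size R = s ∧ ¬ Rich (autGroup 𝔹) (Fin (dim arB arΓ)) R.1} := by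
      apply Nat.card_le_card_of_injective (fun R => ⟨R.1, R.2.1, fun h => R.2.2
        (hagree 1 (fun _ => k) (fun _ => R.1) Nat.one_pos (fun _ => h))⟩)
      intro R R' h
      exact Subtype.ext (congrArg (fun x => x.1) h)
    exact_mod_cast h2
  · have hfk := hfin k
    have hfIk := hfinI k
    have hcount := const_count (G := autGroup 𝔹) Γ k hk
    have hcountr : (Nat.card {R : InvRel (autGroup 𝔹) (Fin k) //
        ∀ b, (∀ l, (Γ l).Nonempty → (fun _ => b) ∈ Γ l) → (fun _ => b) ∉ R.1} : ℝ) =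
        (2⁻¹ : ℝ) ^ constOrbits (autGroup 𝔹) Γ * Nat.card (InvRel (autGroup 𝔹) (Fin k)) := by
      rw [← hcount]
      push_cast
      rw [inv_pow]
      field_simp
    have h1 := hbd 1 (fun _ => k) k (fun _ => le_refl k)
    have h2 : (Nat.card (∀ _ : Fin 1, InvRel (autGroup 𝔹) (Fin k)) : ℝ) =
        Nat.card (InvRel (autGroup 𝔹) (Fin k)) := by
      rw [Nat.card_congr (Equiv.funUnique (Fin 1) _)]
    rw [h2] at h1
    have h3 : Nat.card {R : InvRel (autGroup 𝔹) (Fin k) // ¬ Rich (autGroup 𝔹) (Fin (dim arB arΓ)) R.1} ≤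
        Nat.card {R : ∀ _ : Fin 1, InvRel (autGroup 𝔹) (Fin k) //
          ¬ ∀ j, Rich (autGroup 𝔹) (Fin (dim arB arΓ)) (R j).1} := by
      apply Nat.card_le_card_of_injective (fun R => ⟨fun _ => R.1, fun h => R.2 (h 0)⟩)
      intro R R' h
      exact Subtype.ext (congrFun (congrArg (fun x => x.1) h) 0)
    have h3' : (Nat.card {R : InvRel (autGroup 𝔹) (Fin k) // ¬ Rich (autGroup 𝔹) (Fin (dim arB arΓ)) R.1} : ℝ) ≤
        C * Real.exp (-(δ * Real.exp (c * k))) * Nat.card (InvRel (autGroup 𝔹) (Fin k)) := by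
      have h4 : (Nat.card {R : InvRel (autGroup 𝔹) (Fin k) // ¬ Rich (autGroup 𝔹) (Fin (dim arB arΓ)) R.1} : ℝ) ≤
        Nat.card {R : ∀ _ : Fin 1, InvRel (autGroup 𝔹) (Fin k) //
          ¬ ∀ j, Rich (autGroup 𝔹) (Fin (dim arB arΓ)) (R j).1} := by exact_mod_cast h3
      refine h4.trans (h1.trans (le_of_eq ?_))
      push_cast
      ring
    -- the two implications for rich relations
    have hA : ∀ R : InvRel (autGroup 𝔹) (Fin k), HomToProj (Pol (template Γ R)) →
        (∀ b, (∀ l, (Γ l).Nonempty → (fun _ => b) ∈ Γ l) → (fun _ => b) ∉ R.1) ∨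
          ¬ Rich (autGroup 𝔹) (Fin (dim arB arΓ)) R.1 := by
      intro R hR
      left
      intro b hb hbR
      refine not_hom_pol ⟨b, ?_⟩ hR
      rintro (l | j) v hv
      · exact hb l ⟨v, hv⟩
      · exact hbR
    have hB : ∀ R : InvRel (autGroup 𝔹) (Fin k),
        (∀ b, (∀ l, (Γ l).Nonempty → (fun _ => b) ∈ Γ l) → (fun _ => b) ∉ R.1) →
        HomToProj (Pol (template Γ R)) ∨ ¬ Rich (autGroup 𝔹) (Fin (dim arB arΓ)) R.1 := by
      intro R hR
      by_cases hrich : Rich (autGroup 𝔹) (Fin (dim arB arΓ)) R.1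
      · left
        rcases hdich 1 (fun _ => k) (fun _ => R) Nat.one_pos (fun _ => hrich) with h | h
        · exfalso
          obtain ⟨b, hb⟩ := h
          refine hR b ?_ ?_
          · rintro l ⟨v, hv⟩
            exact hb (Sum.inl l) v hv
          · obtain ⟨v, hv⟩ := rich_nonempty (dim_ge arB arΓ) hrich
            exact hb (Sum.inr 0) v hv
        · exact hom_pol h
      · exact Or.inr hrich
    have hA' := card_or hA
    have hB' := card_or hB
    have hA'' : (Nat.card {R : InvRel (autGroup 𝔹) (Fin k) // HomToProj (Pol (template Γ R))} : ℝ) ≤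
        Nat.card {R : InvRel (autGroup 𝔹) (Fin k) //
          ∀ b, (∀ l, (Γ l).Nonempty → (fun _ => b) ∈ Γ l) → (fun _ => b) ∉ R.1} +
        Nat.card {R : InvRel (autGroup 𝔹) (Fin k) // ¬ Rich (autGroup 𝔹) (Fin (dim arB arΓ)) R.1} := by
      exact_mod_cast hA'
    have hB'' : (Nat.card {R : InvRel (autGroup 𝔹) (Fin k) //
          ∀ b, (∀ l, (Γ l).Nonempty → (fun _ => b) ∈ Γ l) → (fun _ => b) ∉ R.1} : ℝ) ≤
        Nat.card {R : InvRel (autGroup 𝔹) (Fin k) // HomToProj (Pol (template Γ R))} +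
        Nat.card {R : InvRel (autGroup 𝔹) (Fin k) // ¬ Rich (autGroup 𝔹) (Fin (dim arB arΓ)) R.1} := by
      exact_mod_cast hB'
    rw [hcountr] at hA'' hB''
    rw [abs_le]
    constructor
    · linarith
    · linarith

end Pool.Agent.Results.MP_f99268_lc.AlmostAllReducts
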