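import Pool.Agent.X99.SY.J

/-!
# Almost all injective relations over an ordered homogeneous structure: polymorphism clones and type clones

Let `𝔹` be an infinite homogeneous structure in a finite relational signature whose automorphisms preserve a linear order of
the domain (the problem's `Δ` is ordered), and `G = Aut(𝔹)`. A relation is injective if it consists of injective tuples. For all
but a proportion `exp(K k^r - c k!)` of the injective `G`-invariant relations `R` of arity `k`, whatever the structure `Γ` on `B`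
is, every polymorphism `f` of `(B; Γ, R)` has a coordinate `i` such that the order of `f(x)` and `f(y)` is the order of `x i` and
`y i` for all `x`, `y` which differ in all coordinates; the polymorphism clone and all the type clones `T^m_c`, `m ≥ 2`, have
clone homomorphisms to the projections. (Such polymorphisms are not essentially unary in general.)

Definitions. From `Pool.Agent.W994.AR`: `Str σ ar B`: a structure on `B`, one relation `Set (Fin (ar i) → B)` for each symbol
`i : σ`; `autGroup 𝔹`, `Homogeneous`: as in the problem; `expand Γ R`: the structure with the relations of `Γ` and the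
relations `R j`; `IsPol 𝔸 f`: `f` is a polymorphism of `𝔸`. From `Pool.Agent.X99.SY.F`: `InjOrb G k`: the type of the orbits of
injective `k`-tuples; `InjRel G k`: the type of the `G`-invariant relations of arity `k` all of whose tuples are injective. From
`Pool.Agent.X99.SY.H`: `HomToProj C`: the clone `C` has a clone homomorphism to the clone of projections on `{0,1}`;
`Pol 𝔸`: the polymorphism clone; `stab G c`: the pointwise stabilizer of `c`; `Canonical H f`; `TypeClone H m 𝔸`: the
operations on `m`-types (orbits of `H`) induced by the canonical polymorphisms.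
-/

set_option autoImplicit false

namespace Pool.Agent.Results.MP_f99268_lc.InjectiveRelations

open Pool.Agent.W994.AR Pool.Agent.X99.SY

/-- The structure `(B; Γ, R)`. -/
abbrev template {B ι : Type} {arΓ : ι → ℕ} (Γ : Str ι arΓ B) {G : Subgroup (Equiv.Perm B)} {k : ℕ}
    (R : InjRel G k) : Str (ι ⊕ Fin 1) (Sum.elim arΓ fun _ => k) B :=
  expand Γ (τ := Fin 1) (k := fun _ => k) (fun _ => R.1.1)

/-- Every polymorphism of `𝔸` orders the coordinatewise distinct pairs as one of their coordinates; the polymorphism clone and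
all the type clones `T^m_c`, `m ≥ 2`, have clone homomorphisms to the projections. -/
def Trivial {B ι : Type} [LinearOrder B] {ar : ι → ℕ} (G : Subgroup (Equiv.Perm B)) (𝔸 : Str ι ar B) : Prop :=
  (∀ (n : ℕ) (f : (Fin n → B) → B), IsPol 𝔸 f → ∃ i : Fin n, ∀ x y : Fin n → B, (∀ a, x a ≠ y a) →
    f x ≠ f y ∧ (f x < f y ↔ x i < y i)) ∧
  HomToProj (Pol 𝔸) ∧
  ∀ (n : ℕ) (c : Fin n → B) (m : ℕ), 2 ≤ m → HomToProj (TypeClone (stab G c) m 𝔸)

theorem result {B σ : Type} [Infinite B] [LinearOrder B] [Finite σ] {arB : σ → ℕ} (𝔹 : Str σ arB B)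
    (h𝔹 : Homogeneous 𝔹) (hord : ∀ g ∈ autGroup 𝔹, StrictMono g) :
    -- the number of injective relations
    (∀ k : ℕ, Finite (InjOrb (autGroup 𝔹) k) ∧ k.factorial ≤ Nat.card (InjOrb (autGroup 𝔹) k) ∧
      Nat.card (InjRel (autGroup 𝔹) k) = 2 ^ Nat.card (InjOrb (autGroup 𝔹) k)) ∧
    -- almost all of them
    ∃ (k₀ K r : ℕ) (c : ℝ), 0 < c ∧ ∀ k : ℕ, k₀ ≤ k →
      (Nat.card {R : InjRel (autGroup 𝔹) k // ¬ ∀ (ι : Type) (arΓ : ι → ℕ) (Γ : Str ι arΓ B),
          Trivial (autGroup 𝔹) (template Γ R)} : ℝ) ≤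
        Real.exp (K * (k : ℝ) ^ r - c * k.factorial) * Nat.card (InjRel (autGroup 𝔹) k) := by
  classical
  have hfin : ∀ (V : Type) [Finite V], Finite (Orb (autGroup 𝔹) V) := fun V _ => hom_finite h𝔹 V
  refine ⟨fun k => ?_, ?_⟩
  · have h1 := hfin (Fin k)
    have h2 : Finite (InjOrb (autGroup 𝔹) k) := inferInstance
    refine ⟨h2, factorial_le hord k, ?_⟩
    have := Fintype.ofFinite (InjOrb (autGroup 𝔹) k)
    rw [Nat.card_congr (injEquiv (autGroup 𝔹) k), Nat.card_eq_fintype_card, Fintype.card_set,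
      Nat.card_eq_fintype_card]
  obtain ⟨K, r, hK⟩ := orb_card_le h𝔹
  set a : ℕ := Nat.card (Orb (autGroup 𝔹) (Fin 3 ⊕ Fin 3)) with ha
  refine ⟨max 6 (a + 1), K * (a + 1), r, (2⁻¹ : ℝ) ^ (a + 1) / (a + 1) ^ 2, by positivity, fun k hk => ?_⟩
  have hk6 : 6 ≤ k := le_trans (le_max_left _ _) hk
  have hka : a < k.factorial := lt_of_lt_of_le (le_trans (le_max_right _ _) hk) (Nat.self_le_factorial k)
  have hfk := hfin (Fin k)
  have hf6 := hfin (Fin 3 ⊕ Fin 3)
  have hfinO : Finite (InjOrb (autGroup 𝔹) k) := inferInstance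
  have hfinR : Finite (InjRel (autGroup 𝔹) k) := Finite.of_equiv _ (injEquiv (autGroup 𝔹) k).symm
  have hgood : ∀ R : InjRel (autGroup 𝔹) k, Sep (autGroup 𝔹) a R.1.1 →
      ∀ (ι : Type) (arΓ : ι → ℕ) (Γ : Str ι arΓ B), Trivial (autGroup 𝔹) (template Γ R) := by
    intro R hR ι arΓ Γ
    have hpp : ∀ T : Prop → Prop → Prop → Prop, PP (template Γ R) (Rel3 B T) := fun T =>
      pp_all_inj hord Γ (by omega) (by simpa using hk6) hka le_rfl R.1.2 R.2 hR (Rel3_invar hord T)
        (fun v hv => hv.1)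
    have hg : ∀ (n : ℕ) (f : (Fin n → B) → B), IsPol (template Γ R) f → ∃ i, GoodB f i :=
      fun n f hf => exists_good hpp hf
    refine ⟨hg, hom_pol_of_good hg, fun n c m hm => hom_type_of_good hg (stab (autGroup 𝔹) c) ?_ hm⟩
    intro g hg'
    have h1 : g ∈ autGroup 𝔹 ∧ ∀ i, g (c i) = c i := hg'
    exact hord g h1.1
  have hle : Nat.card {R : InjRel (autGroup 𝔹) k // ¬ ∀ (ι : Type) (arΓ : ι → ℕ) (Γ : Str ι arΓ B),
          Trivial (autGroup 𝔹) (template Γ R)} ≤
      Nat.card {R : InjRel (autGroup 𝔹) k // ¬ Sep (autGroup 𝔹) a R.1.1} := by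
    apply Nat.card_le_card_of_injective (fun R => ⟨R.1, fun h => R.2 (hgood R.1 h)⟩)
    intro R R' h
    exact Subtype.ext (congrArg (fun x => x.1) h)
  have hN : (Nat.card (Orb (autGroup 𝔹) (Fin k)) : ℝ) ≤ Real.exp (K * (k : ℝ) ^ r) := by
    have := hK k (by omega)
    linarith
  calc (Nat.card {R : InjRel (autGroup 𝔹) k // ¬ ∀ (ι : Type) (arΓ : ι → ℕ) (Γ : Str ι arΓ B),
          Trivial (autGroup 𝔹) (template Γ R)} : ℝ)
      ≤ Nat.card {R : InjRel (autGroup 𝔹) k // ¬ Sep (autGroup 𝔹) a R.1.1} := by exact_mod_cast hle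
    _ ≤ (Nat.card (Orb (autGroup 𝔹) (Fin k)) : ℝ) ^ (a + 1) *
      Real.exp (-((2⁻¹ : ℝ) ^ (a + 1) * (k.factorial / (a + 1) ^ 2))) * Nat.card (InjRel (autGroup 𝔹) k) :=
        sep_count hord a k
    _ ≤ Real.exp (K * (k : ℝ) ^ r) ^ (a + 1) *
      Real.exp (-((2⁻¹ : ℝ) ^ (a + 1) * (k.factorial / (a + 1) ^ 2))) * Nat.card (InjRel (autGroup 𝔹) k) := by
        apply mul_le_mul_of_nonneg_right _ (Nat.cast_nonneg _)
        apply mul_le_mul_of_nonneg_right _ (Real.exp_pos _).le
        exact pow_le_pow_left₀ (Nat.cast_nonneg _) hN _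
    _ = _ := by
        rw [← Real.exp_nat_mul, ← Real.exp_add]
        congr 2
        push_cast
        ring

end Pool.Agent.Results.MP_f99268_lc.InjectiveRelations
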