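import Pool.Agent.X99.SY.H
import Pool.Agent.X99.SY.B

/-!
# Polymorphism clones and type clones for almost all reducts by relations with prescribed symmetries

Let `𝔹` be a homogeneous structure in a finite relational signature, `G = Aut(𝔹)`, `Γ` a finite family of `G`-invariant relations
and `H j` groups of permutations of the coordinates (for instance full symmetric groups: symmetric relations). For almost all
`G`-invariant and `H j`-symmetric relations `R j`, `Pol(B; Γ, R)` has a clone homomorphism to the clone of projections if and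
only if the type clone has one, for all constants `c` and all `m ≥ 2`. The constants do not depend on the groups `H j`.

Definitions. From `Pool.Agent.W994.AR`: `Str σ ar B`: a structure on `B`, one relation `Set (Fin (ar i) → B)` for each symbol
`i : σ`; `autGroup 𝔹`, `Homogeneous`: as in the problem; `Invar G S`: `S` is invariant under `G`; `InvRel G (Fin k)`: the type of
all `G`-invariant relations of arity `k`; `Orb H (Fin m)`: the type of the orbits of `H` on `m`-tuples; `expand Γ R`: the
structure with the relations of `Γ` and the relations `R j`; `IsPol 𝔸 f`: `f` is a polymorphism of `𝔸`; `constOrbits G Γ`: the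
number of orbits of `G` on `B` all of whose points `b` have `(b, ..., b)` in every nonempty relation of `Γ`. From
`Pool.Agent.X99.SY.A`: `SymRel G H`: the type of the relations `R : InvRel G (Fin k)` which are invariant under the permutations
of the coordinates in `H`. From `Pool.Agent.X99.SY.H`: `HomToProj C`: the clone `C` has a clone homomorphism to the clone of
projections on `{0,1}`; `Pol 𝔸`: the polymorphism clone; `stab G c`: the pointwise stabilizer of `c`; `Canonical H f`;
`TypeClone H m 𝔸`: the operations on `m`-types (orbits of `H`) induced by the canonical polymorphisms.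
-/

set_option autoImplicit false

namespace Pool.Agent.Results.MP_f99268_lc.SymmetricTemplates

open Pool.Agent.W994.AR Pool.Agent.X99.SY

/-- The polymorphism clone has a clone homomorphism to the projections if and only if the type clone has one, for ALL constants
and all `m ≥ 2`. -/
def Agree {B ι : Type} {ar : ι → ℕ} (G : Subgroup (Equiv.Perm B)) (𝔸 : Str ι ar B) : Prop :=
  ∀ (n : ℕ) (c : Fin n → B) (m : ℕ), 2 ≤ m → (HomToProj (Pol 𝔸) ↔ HomToProj (TypeClone (stab G c) m 𝔸))

theorem card_or {α : Type} [Finite α] {p q r : α → Prop} (h : ∀ x, p x → q x ∨ r x) :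
    Nat.card {x // p x} ≤ Nat.card {x // q x} + Nat.card {x // r x} := by
  classical
  rw [← Nat.card_sum]
  apply Nat.card_le_card_of_injective (fun x : {x // p x} =>
    if hq : q x.1 then (Sum.inl ⟨x.1, hq⟩ : {x // q x} ⊕ {x // r x}) else Sum.inr ⟨x.1, (h x.1 x.2).resolve_left hq⟩)
  intro x y hxy
  dsimp only at hxy
  split_ifs at hxy with h4 h5 h5
  · simp only [Sum.inl.injEq, Subtype.mk.injEq] at hxy
    exact Subtype.ext hxy
  · simp only [Sum.inr.injEq, Subtype.mk.injEq] at hxy
    exact Subtype.ext hxy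

theorem result {B σ ι : Type} [Nontrivial B] [Finite σ] [Finite ι] {arB : σ → ℕ} {arΓ : ι → ℕ}
    (𝔹 : Str σ arB B) (h𝔹 : Homogeneous 𝔹) (Γ : Str ι arΓ B)
    (hΓ : ∀ l, Invar (autGroup 𝔹) (Γ l)) :
    (∀ (n : ℕ) (H : Subgroup (Equiv.Perm (Fin n))), Finite (SymRel (autGroup 𝔹) H)) ∧
    ∃ C δ : ℝ, 0 < C ∧ 0 < δ ∧
      -- the two clones agree for all but an exponentially small proportion
      (∀ (t : ℕ) (k : Fin t → ℕ) (H : ∀ j, Subgroup (Equiv.Perm (Fin (k j)))) (m : ℕ), 1 ≤ t → (∀ j, m ≤ k j) →
        (Nat.card {R : ∀ j, SymRel (autGroup 𝔹) (H j) //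
          ¬ Agree (autGroup 𝔹) (expand Γ (fun j => (R j).1.1))} : ℝ) ≤
          t * (C * Real.exp (-(δ * m))) * Nat.card (∀ j, SymRel (autGroup 𝔹) (H j))) ∧
      -- the proportion of the relations for which there is a clone homomorphism
      (∀ (n : ℕ) (H : Subgroup (Equiv.Perm (Fin n))), 1 ≤ n →
        |(Nat.card {R : SymRel (autGroup 𝔹) H //
            HomToProj (Pol (expand Γ (τ := Fin 1) (k := fun _ => n) (fun _ => R.1.1)))} : ℝ) -
          (2⁻¹ : ℝ) ^ constOrbits (autGroup 𝔹) Γ * Nat.card (SymRel (autGroup 𝔹) H)| ≤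
          C * Real.exp (-(δ * n)) * Nat.card (SymRel (autGroup 𝔹) H)) := by
  classical
  have hfin : ∀ k, Finite (Orb (autGroup 𝔹) (Fin k)) := fun k => hom_finite h𝔹 (Fin k)
  have hfinS : ∀ (k : ℕ) (H : Subgroup (Equiv.Perm (Fin k))), Finite (SymRel (autGroup 𝔹) H) := fun k H => by
    have := hfin k
    exact finite_sym _ H
  have hdich : ∀ (t : ℕ) (k : Fin t → ℕ) (R : ∀ j, InvRel (autGroup 𝔹) (Fin (k j))), 0 < t →
      (∀ j, Rich (autGroup 𝔹) (Fin (dim arB arΓ)) (R j).1) →
      ConstEndo (expand Γ (fun j => (R j).1)) ∨ PPMax (autGroup 𝔹) (expand Γ (fun j => (R j).1)) := by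
    intro t k R ht h
    by_cases hcst : ConstEndo (expand Γ (fun j => (R j).1))
    · exact Or.inl hcst
    · exact Or.inr (max_of_rich 𝔹 h𝔹 Γ hΓ ht R h hcst)
  refine ⟨hfinS, ?_⟩
  obtain ⟨C, δ, hC, hδ, hbd⟩ := sym_bound (autGroup 𝔹) (dim arB arΓ) (dim_pos _ _) hfin
  refine ⟨C, δ, hC, hδ, ?_, ?_⟩
  · intro t k H m ht hm
    have hF : ∀ j, Finite (SymRel (autGroup 𝔹) (H j)) := fun j => hfinS _ (H j)
    have h1 := pi_bad (fun j => SymRel (autGroup 𝔹) (H j))
      (fun j R => Rich (autGroup 𝔹) (Fin (dim arB arΓ)) R.1.1) (C * Real.exp (-(δ * m))) (fun j => by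
        refine (hbd (k j) (H j)).trans ?_
        apply mul_le_mul_of_nonneg_right _ (Nat.cast_nonneg _)
        apply mul_le_mul_of_nonneg_left _ hC.le
        apply Real.exp_le_exp.2
        have h5 : (m : ℝ) ≤ k j := by exact_mod_cast hm j
        have := mul_le_mul_of_nonneg_left h5 hδ.le
        linarith)
    refine le_trans ?_ h1
    have h2 : Nat.card {R : ∀ j, SymRel (autGroup 𝔹) (H j) //
        ¬ Agree (autGroup 𝔹) (expand Γ (fun j => (R j).1.1))} ≤
        Nat.card {R : ∀ j, SymRel (autGroup 𝔹) (H j) //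
          ¬ ∀ j, Rich (autGroup 𝔹) (Fin (dim arB arΓ)) (R j).1.1} := by
      apply Nat.card_le_card_of_injective (fun R => ⟨R.1, fun h => R.2 (fun n c m hm =>
        iff_of_dichotomy (hdich t k (fun j => (R.1 j).1) ht h) (stab (autGroup 𝔹) c) hm)⟩)
      intro R R' h
      exact Subtype.ext (congrArg (fun x => x.1) h)
    exact_mod_cast h2
  · intro n H hn
    have := hfin n
    have hSF := hfinS n H
    have hcount := sym_const_count (G := autGroup 𝔹) Γ n hn H
    have hcountr : (Nat.card {R : SymRel (autGroup 𝔹) H //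
        ∀ b, (∀ l, (Γ l).Nonempty → (fun _ => b) ∈ Γ l) → (fun _ => b) ∉ R.1.1} : ℝ) =
        (2⁻¹ : ℝ) ^ constOrbits (autGroup 𝔹) Γ * Nat.card (SymRel (autGroup 𝔹) H) := by
      rw [← hcount]
      push_cast
      rw [inv_pow]
      field_simp
    have h3 := hbd n H
    have hA : ∀ R : SymRel (autGroup 𝔹) H,
        HomToProj (Pol (expand Γ (τ := Fin 1) (k := fun _ => n) (fun _ => R.1.1))) →
        (∀ b, (∀ l, (Γ l).Nonempty → (fun _ => b) ∈ Γ l) → (fun _ => b) ∉ R.1.1) ∨
          ¬ Rich (autGroup 𝔹) (Fin (dim arB arΓ)) R.1.1 := by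
      intro R hR
      left
      intro b hb hbR
      refine not_hom_pol ⟨b, ?_⟩ hR
      rintro (l | j) v hv
      · exact hb l ⟨v, hv⟩
      · exact hbR
    have hB : ∀ R : SymRel (autGroup 𝔹) H,
        (∀ b, (∀ l, (Γ l).Nonempty → (fun _ => b) ∈ Γ l) → (fun _ => b) ∉ R.1.1) →
        HomToProj (Pol (expand Γ (τ := Fin 1) (k := fun _ => n) (fun _ => R.1.1))) ∨
          ¬ Rich (autGroup 𝔹) (Fin (dim arB arΓ)) R.1.1 := by
      intro R hR
      by_cases hrich : Rich (autGroup 𝔹) (Fin (dim arB arΓ)) R.1.1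
      · left
        rcases hdich 1 (fun _ => n) (fun _ => R.1) Nat.one_pos (fun _ => hrich) with h | h
        · exfalso
          obtain ⟨b, hb⟩ := h
          refine hR b ?_ ?_
          · rintro l ⟨v, hv⟩
            exact hb (Sum.inl l) v hv
          · obtain ⟨v, hv⟩ := rich_nonempty (dim_ge arB arΓ) hrich
            exact hb (Sum.inr 0) v hv
        · exact hom_pol h
      · exact Or.inr hrich
    have hA' := card_or hA
    have hB' := card_or hB
    have hA'' : (Nat.card {R : SymRel (autGroup 𝔹) H //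
          HomToProj (Pol (expand Γ (τ := Fin 1) (k := fun _ => n) (fun _ => R.1.1)))} : ℝ) ≤
        Nat.card {R : SymRel (autGroup 𝔹) H //
          ∀ b, (∀ l, (Γ l).Nonempty → (fun _ => b) ∈ Γ l) → (fun _ => b) ∉ R.1.1} +
        Nat.card {R : SymRel (autGroup 𝔹) H // ¬ Rich (autGroup 𝔹) (Fin (dim arB arΓ)) R.1.1} := by
      exact_mod_cast hA'
    have hB'' : (Nat.card {R : SymRel (autGroup 𝔹) H //
          ∀ b, (∀ l, (Γ l).Nonempty → (fun _ => b) ∈ Γ l) → (fun _ => b) ∉ R.1.1} : ℝ) ≤
        Nat.card {R : SymRel (autGroup 𝔹) H //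
          HomToProj (Pol (expand Γ (τ := Fin 1) (k := fun _ => n) (fun _ => R.1.1)))} +
        Nat.card {R : SymRel (autGroup 𝔹) H // ¬ Rich (autGroup 𝔹) (Fin (dim arB arΓ)) R.1.1} := by
      exact_mod_cast hB'
    rw [hcountr] at hA'' hB''
    rw [abs_le]
    constructor
    · linarith
    · linarith

end Pool.Agent.Results.MP_f99268_lc.SymmetricTemplates
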